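import Pool.Agent.Helper98.GY.Stmts
import Pool.Agent.Helper41.TWM.MLA

/-!
Sheet GY (MP_7a8f48_an), row MLA: ergodic joinings of the powers, general base.
-/

set_option linter.unusedSectionVars false

open MeasureTheory Filter Topology Finset
open scoped ComplexConjugate

namespace Pool.Agent.Helper41.GY

open Pool.Agent.Helper98.TW (SA AM UF BF Sys IA Inc Lm)
open Pool.Agent.Helper98.GY
open Pool.Agent.Helper40.TWM (HQ St NK NC ST_MTV ST_MSK ST_MNK)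
open Pool.Agent.Helper16.AZ (T E Op mm)
open Pool.Agent.Helper16.BZ (co Wk EE)
open Pool.Agent.Helper40.DZ (SK)
open Pool.Agent.Helper40.JZ (LM ST_LMF)
open Pool.Agent.Helper73.TWR
open Pool.Agent.Helper41.TWM (int_norm_le_sqrt dsum mean_cs mean_split ae_aesm)

section joi

variable {Y : Type} [MeasurableSpace Y] {ν : Measure Y} [IsProbabilityMeasure ν] {S : Y → Y}
  {p q : ℕ} {κ : Measure (Y × Y)} {F G G' : Y → ℂ} {V : ℝ}

theorem mp1 (h : JY S ν p q κ) : MeasurePreserving Prod.fst κ ν := ⟨measurable_fst, h.fst⟩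

theorem mp2 (h : JY S ν p q κ) : MeasurePreserving Prod.snd κ ν := ⟨measurable_snd, h.snd⟩

/-- the sigma algebra of the second coordinate -/
noncomputable def B2 (Y : Type) [MeasurableSpace Y] : SA (Y × Y) :=
  MeasurableSpace.comap Prod.snd (inferInstance : MeasurableSpace Y)

theorem lm_B2 : Lm (B2 Y) := measurable_snd.comap_le

theorem inner_JJ (hJ : JY S ν p q κ) (hF : MemLp F 2 ν) (hG : AEStronglyMeasurable G ν)
    (hV0 : 0 ≤ V) (hV : ∀ᵐ x ∂ν, ‖G x‖ ≤ V) :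
    ‖∫ z, F z.1 * conj (G z.2) ∂κ‖ ≤ V * √(JJY κ F) := by
  have hP := hJ.prob
  have hF1 : MemLp (fun z : Y × Y => F z.1) 2 κ := hF.comp_measurePreserving (mp1 hJ)
  have hGab : AB ν (fun x => conj (G x)) := AB.conj ⟨hG, V, hV⟩
  have hG2 : AB κ (fun z : Y × Y => conj (G z.2)) := hGab.comp (mp2 hJ)
  have hGA : AM κ (B2 Y) (fun z : Y × Y => conj (G z.2)) :=
    Pool.Agent.Helper53.TWR.am_cm (mp2 hJ) hGab.1
  have hE2 : MemLp (κ[fun z : Y × Y => F z.1|B2 Y]) 2 κ := ce_memLp hF1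
  have e : ∫ z, F z.1 * conj (G z.2) ∂κ =
      ∫ z, conj (G z.2) * (κ[fun z : Y × Y => F z.1|B2 Y]) z ∂κ := by
    rw [int_ce lm_B2 hGA hG2 (hF1.integrable (by norm_num))]
    exact integral_congr_ae (Eventually.of_forall fun z => mul_comm _ _)
  rw [e]
  calc ‖∫ z, conj (G z.2) * (κ[fun z : Y × Y => F z.1|B2 Y]) z ∂κ‖
      ≤ ∫ z, ‖conj (G z.2) * (κ[fun z : Y × Y => F z.1|B2 Y]) z‖ ∂κ :=
        norm_integral_le_integral_norm _
    _ ≤ ∫ z, V * ‖(κ[fun z : Y × Y => F z.1|B2 Y]) z‖ ∂κ := by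
        refine integral_mono_ae ?_ ?_ ?_
        · exact (hG2.int_mul (hE2.integrable (by norm_num))).norm
        · exact (hE2.integrable (by norm_num)).norm.const_mul V
        · filter_upwards [(mp2 hJ).quasiMeasurePreserving.ae hV] with z hz
          rw [norm_mul, RCLike.norm_conj]
          exact mul_le_mul_of_nonneg_right hz (norm_nonneg _)
    _ = V * ∫ z, ‖(κ[fun z : Y × Y => F z.1|B2 Y]) z‖ ∂κ := integral_const_mul _ _
    _ ≤ V * √(JJY κ F) := mul_le_mul_of_nonneg_left (int_norm_le_sqrt hE2) hV0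

theorem inner_L2 (hJ : JY S ν p q κ) (hF : MemLp F 2 ν) (hG : AEStronglyMeasurable G ν)
    (hV0 : 0 ≤ V) (hV : ∀ᵐ x ∂ν, ‖G x‖ ≤ V) :
    ‖∫ z, F z.1 * conj (G z.2) ∂κ‖ ≤ V * √(∫ x, ‖F x‖ ^ 2 ∂ν) := by
  have hP := hJ.prob
  have hF1 : MemLp (fun z : Y × Y => F z.1) 2 κ := hF.comp_measurePreserving (mp1 hJ)
  have hGab : AB ν (fun x => conj (G x)) := AB.conj ⟨hG, V, hV⟩
  have hG2 : AB κ (fun z : Y × Y => conj (G z.2)) := hGab.comp (mp2 hJ)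
  calc ‖∫ z, F z.1 * conj (G z.2) ∂κ‖
      ≤ ∫ z, ‖F z.1 * conj (G z.2)‖ ∂κ := norm_integral_le_integral_norm _
    _ ≤ ∫ z, V * ‖F z.1‖ ∂κ := by
        refine integral_mono_ae ?_ ?_ ?_
        · refine ((hG2.int_mul (hF1.integrable (by norm_num))).congr
            (Eventually.of_forall fun z => ?_)).norm
          exact mul_comm _ _
        · exact (hF1.integrable (by norm_num)).norm.const_mul V
        · filter_upwards [(mp2 hJ).quasiMeasurePreserving.ae hV] with z hz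
          rw [norm_mul, RCLike.norm_conj, mul_comm]
          exact mul_le_mul_of_nonneg_right hz (norm_nonneg _)
    _ = V * ∫ z, ‖F z.1‖ ∂κ := integral_const_mul _ _
    _ = V * ∫ x, ‖F x‖ ∂ν := by
        have hm : AEStronglyMeasurable (fun x => ‖F x‖) (κ.map Prod.fst) := by
          rw [hJ.fst]
          exact hF.1.norm
        rw [← hJ.fst, integral_map measurable_fst.aemeasurable hm]
    _ ≤ V * √(∫ x, ‖F x‖ ^ 2 ∂ν) := mul_le_mul_of_nonneg_left (int_norm_le_sqrt hF) hV0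

/-- the correlations of two bounded functions -/
theorem corr (hJ : JY S ν p q κ) {C : SA Y} (hC : Lm C) {ε : ℝ} (hε : 0 ≤ ε)
    (hE : ∀ F : Y → ℂ, Measurable F → MemLp F 2 ν → ν[F|C] =ᵐ[ν] 0 →
      JJY κ F ≤ ε * ∫ x, ‖F x‖ ^ 2 ∂ν)
    (hG : AEStronglyMeasurable G ν) (hG' : AEStronglyMeasurable G' ν) (hV0 : 0 ≤ V)
    (hV : ∀ x, ‖G x‖ ≤ V) (hV' : ∀ x, ‖G' x‖ ≤ V) :
    ‖∫ z, G z.1 * conj (G' z.2) ∂κ‖ ≤ ‖∫ x, G x ∂ν‖ * ‖∫ x, G' x ∂ν‖ +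
      V * √(ε * V ^ 2) + V * √(∫ x, ‖(ν[G|C]) x - ∫ y, G y ∂ν‖ ^ 2 ∂ν) := by
  have hP := hJ.prob
  have hGab : AB ν G := ⟨hG, V, Eventually.of_forall hV⟩
  have hGab' : AB ν G' := ⟨hG', V, Eventually.of_forall hV'⟩
  obtain ⟨G₀, hG₀, hGe⟩ := exists_bf (μ := ν) hG (Eventually.of_forall hV)
  obtain ⟨m, hm⟩ : ∃ m : ℂ, m = ∫ x, G x ∂ν := ⟨_, rfl⟩
  have hEab : AB ν (ν[G|C]) := hGab.ce hC
  obtain ⟨F1, hF1⟩ : ∃ F1 : Y → ℂ, F1 = fun x => G₀ x - (ν[G|C]) x := ⟨_, rfl⟩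
  obtain ⟨F2, hF2⟩ : ∃ F2 : Y → ℂ, F2 = fun x => (ν[G|C]) x - m := ⟨_, rfl⟩
  have hF1ab : AB ν F1 := by
    rw [hF1]
    exact hG₀.ab.sub hEab
  have hF2ab : AB ν F2 := by
    rw [hF2]
    exact hEab.sub (ab_const m)
  have hF1m : Measurable F1 := by
    rw [hF1]
    exact hG₀.1.sub (ce_meas hC)
  have hF1z : ν[F1|C] =ᵐ[ν] 0 := by
    rw [hF1]
    have h1 := ce_sub (μ := ν) (𝒜 := C) hG₀.ab.int hEab.int
    have h2 : ν[G₀|C] =ᵐ[ν] ν[G|C] := ce_congr hGe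
    have h3 : ν[ν[G|C]|C] =ᵐ[ν] ν[G|C] := ce_of_am hC hEab.int ce_am
    filter_upwards [h1, h2, h3] with x x1 x2 x3
    rw [x1, x2, x3, sub_self]
    rfl
  have hF1s : ∫ x, ‖F1 x‖ ^ 2 ∂ν ≤ V ^ 2 := by
    have h1 : ∫ x, ‖F1 x‖ ^ 2 ∂ν = ∫ x, ‖G x - (ν[G|C]) x‖ ^ 2 ∂ν := by
      refine integral_congr_ae ?_
      filter_upwards [hGe] with x hx
      rw [hF1]
      show ‖G₀ x - _‖ ^ 2 = _
      rw [hx]
    have h2 := sub_ce_sq (μ := ν) hC hGab.memLp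
    have h3 : ∫ x, ‖G x‖ ^ 2 ∂ν ≤ ∫ _, V ^ 2 ∂ν := by
      refine integral_mono_of_nonneg (Eventually.of_forall fun x => sq_nonneg _)
        (integrable_const _) (Eventually.of_forall fun x => ?_)
      exact pow_le_pow_left₀ (norm_nonneg _) (hV x) 2
    rw [integral_const, probReal_univ, one_smul] at h3
    rw [h1]
    exact h2.trans h3
  -- the three terms
  have hG2 : AB κ (fun z : Y × Y => conj (G' z.2)) := (hGab'.conj).comp (mp2 hJ)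
  have e : ∫ z, G z.1 * conj (G' z.2) ∂κ = (∫ z, F1 z.1 * conj (G' z.2) ∂κ +
      ∫ z, F2 z.1 * conj (G' z.2) ∂κ) + m * conj (∫ x, G' x ∂ν) := by
    have i1 : Integrable (fun z : Y × Y => F1 z.1 * conj (G' z.2)) κ :=
      ((hF1ab.comp (mp1 hJ)).mul hG2).int
    have i2 : Integrable (fun z : Y × Y => F2 z.1 * conj (G' z.2)) κ :=
      ((hF2ab.comp (mp1 hJ)).mul hG2).int
    have i3 : Integrable (fun z : Y × Y => m * conj (G' z.2)) κ := hG2.int.const_mul m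
    have e1 : ∫ z, m * conj (G' z.2) ∂κ = m * conj (∫ x, G' x ∂ν) := by
      rw [integral_const_mul, integral_conj]
      have hm1 : AEStronglyMeasurable G' (κ.map Prod.snd) := by
        rw [hJ.snd]
        exact hG'
      rw [← hJ.snd, integral_map measurable_snd.aemeasurable hm1]
    have i12 : Integrable (fun z : Y × Y => F1 z.1 * conj (G' z.2) +
        F2 z.1 * conj (G' z.2)) κ := i1.add i2
    rw [← e1, ← integral_add i1 i2, ← integral_add i12 i3]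
    refine integral_congr_ae ?_
    filter_upwards [(mp1 hJ).quasiMeasurePreserving.ae hGe] with z hz
    rw [hF1, hF2]
    show G z.1 * conj (G' z.2) = ((G₀ z.1 - _) * _ + _ * _) + m * _
    rw [hz]
    ring
  rw [e]
  have b1 : ‖∫ z, F1 z.1 * conj (G' z.2) ∂κ‖ ≤ V * √(ε * V ^ 2) := by
    refine (inner_JJ hJ hF1ab.memLp hG' hV0 (Eventually.of_forall hV')).trans ?_
    refine mul_le_mul_of_nonneg_left (Real.sqrt_le_sqrt ?_) hV0
    exact (hE F1 hF1m hF1ab.memLp hF1z).trans (mul_le_mul_of_nonneg_left hF1s hε)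
  have b2 : ‖∫ z, F2 z.1 * conj (G' z.2) ∂κ‖ ≤
      V * √(∫ x, ‖(ν[G|C]) x - m‖ ^ 2 ∂ν) := by
    have h := inner_L2 hJ hF2ab.memLp hG' hV0 (Eventually.of_forall hV')
    rw [hF2] at h ⊢
    exact h
  have b3 : ‖m * conj (∫ x, G' x ∂ν)‖ = ‖m‖ * ‖∫ x, G' x ∂ν‖ := by
    rw [norm_mul, RCLike.norm_conj]
  rw [← hm]
  calc _ ≤ ‖∫ z, F1 z.1 * conj (G' z.2) ∂κ + ∫ z, F2 z.1 * conj (G' z.2) ∂κ‖ +
        ‖m * conj (∫ x, G' x ∂ν)‖ := norm_add_le _ _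
    _ ≤ (‖∫ z, F1 z.1 * conj (G' z.2) ∂κ‖ + ‖∫ z, F2 z.1 * conj (G' z.2) ∂κ‖) +
        ‖m * conj (∫ x, G' x ∂ν)‖ := by
        gcongr
        exact norm_add_le _ _
    _ ≤ _ := by
        rw [b3]
        linarith

end joi

/-- the estimate for fixed `H` -/
theorem aHY_le {Y : Type} [MeasurableSpace Y] {ν : Measure Y} [IsProbabilityMeasure ν]
    {S S' : Y → Y} {p q : ℕ} {κ : Measure (Y × Y)} (hJ : JY S ν p q κ) (hS : Sys ν S S') {C : SA Y} (hC : Lm C)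
    {ε : ℝ} (hε : 0 ≤ ε)
    (hE : ∀ F : Y → ℂ, Measurable F → MemLp F 2 ν → ν[F|C] =ᵐ[ν] 0 →
      JJY κ F ≤ ε * ∫ x, ‖F x‖ ^ 2 ∂ν) {d : ℕ} {φ : Y → Op d} {c : Y → E d}
    (hφ : AEStronglyMeasurable φ ν) (hu : ∀ x, φ x ∈ unitary (Op d))
    (hc : AEStronglyMeasurable c ν) {B : ℝ} (hB : ∀ x, ‖c x‖ ≤ B)
    (hN : ∀ k k', NK ν S φ c k k' ≤ NC ν C S φ c k k' ∧
      NC ν C S φ c k k' - NK ν S φ c k k' =
        ∫ x, ‖(ν[EE S φ c k k'|C]) x - ∫ y, EE S φ c k k' y ∂ν‖ ^ 2 ∂ν)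
    {H : ℕ} (hH : 1 ≤ H) :
    aHY S φ c p q κ H ≤
      √((∑ h ∈ range H, ∑ h' ∈ range H, NK ν S φ c (p * h) (p * h')) / (H : ℝ) ^ 2) *
      √((∑ h ∈ range H, ∑ h' ∈ range H, NK ν S φ c (q * h) (q * h')) / (H : ℝ) ^ 2) +
      B ^ 2 * √(ε * (B ^ 2) ^ 2) + B ^ 2 *
      √((∑ h ∈ range H, ∑ h' ∈ range H, NC ν C S φ c (p * h) (p * h')) / (H : ℝ) ^ 2 -
        (∑ h ∈ range H, ∑ h' ∈ range H, NK ν S φ c (p * h) (p * h')) / (H : ℝ) ^ 2) := by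
  have hH0 : (0 : ℝ) < H := by exact_mod_cast hH
  have hE1 : ∀ k k', AEStronglyMeasurable (EE S φ c k k') ν := ae_aesm hS hφ hc
  have hEb : ∀ k k' x, ‖EE S φ c k k' x‖ ≤ B ^ 2 := fun k k' x =>
    Pool.Agent.Helper16.BZ.EE_norm S φ c hu B hB k k' x
  have hNK0 : ∀ k k', 0 ≤ NK ν S φ c k k' := fun k k' => sq_nonneg _
  have hD0 : ∀ k k', 0 ≤ NC ν C S φ c k k' - NK ν S φ c k k' :=
    fun k k' => sub_nonneg.2 (hN k k').1
  have key : ∀ h h', ‖∫ z, EE S φ c (p * h) (p * h') z.1 *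
      conj (EE S φ c (q * h) (q * h') z.2) ∂κ‖ ≤
      √(NK ν S φ c (p * h) (p * h')) * √(NK ν S φ c (q * h) (q * h')) +
      B ^ 2 * √(ε * (B ^ 2) ^ 2) + B ^ 2 * (√(NC ν C S φ c (p * h) (p * h') -
        NK ν S φ c (p * h) (p * h')) * √1) := by
    intro h h'
    have h1 := corr hJ hC hε hE (hE1 (p * h) (p * h')) (hE1 (q * h) (q * h')) (sq_nonneg B)
      (hEb _ _) (hEb _ _)
    rw [← (hN (p * h) (p * h')).2] at h1
    have e : ∀ k k', √(NK ν S φ c k k') = ‖∫ x, EE S φ c k k' x ∂ν‖ :=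
      fun k k' => Real.sqrt_sq (norm_nonneg _)
    rw [e, e, Real.sqrt_one, mul_one]
    exact h1
  have s1 : aHY S φ c p q κ H ≤ (∑ h ∈ range H, ∑ h' ∈ range H,
      (√(NK ν S φ c (p * h) (p * h')) * √(NK ν S φ c (q * h) (q * h')) +
      B ^ 2 * √(ε * (B ^ 2) ^ 2) + B ^ 2 * (√(NC ν C S φ c (p * h) (p * h') -
        NK ν S φ c (p * h) (p * h')) * √1))) / (H : ℝ) ^ 2 := by
    unfold aHY
    refine div_le_div_of_nonneg_right ((Complex.re_le_norm _).trans ?_) (sq_nonneg _)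
    refine (norm_sum_le _ _).trans (sum_le_sum fun h _ => ?_)
    exact (norm_sum_le _ _).trans (sum_le_sum fun h' _ => key h h')
  refine s1.trans ?_
  have s2 : (∑ h ∈ range H, ∑ h' ∈ range H,
      (√(NK ν S φ c (p * h) (p * h')) * √(NK ν S φ c (q * h) (q * h')) +
      B ^ 2 * √(ε * (B ^ 2) ^ 2) + B ^ 2 * (√(NC ν C S φ c (p * h) (p * h') -
        NK ν S φ c (p * h) (p * h')) * √1))) / (H : ℝ) ^ 2 =
      (∑ h ∈ range H, ∑ h' ∈ range H,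
        √(NK ν S φ c (p * h) (p * h')) * √(NK ν S φ c (q * h) (q * h'))) /
        (H : ℝ) ^ 2 + B ^ 2 * √(ε * (B ^ 2) ^ 2) + B ^ 2 * ((∑ h ∈ range H, ∑ h' ∈ range H,
        √(NC ν C S φ c (p * h) (p * h') - NK ν S φ c (p * h) (p * h')) *
          √1) / (H : ℝ) ^ 2) := mean_split hH0 _ _ _ _
  rw [s2]
  have c1 := mean_cs H (F := fun h h' => NK ν S φ c (p * h) (p * h'))
    (G := fun h h' => NK ν S φ c (q * h) (q * h')) (fun h h' => hNK0 _ _)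
    (fun h h' => hNK0 _ _)
  have c2 := mean_cs H (F := fun h h' => NC ν C S φ c (p * h) (p * h') -
    NK ν S φ c (p * h) (p * h')) (G := fun _ _ => 1) (fun h h' => hD0 _ _)
    (fun h h' => zero_le_one)
  have c3 : √((∑ _h ∈ range H, ∑ _h' ∈ range H, (1 : ℝ)) / (H : ℝ) ^ 2) = 1 := by
    simp only [sum_const, card_range, nsmul_eq_mul, mul_one]
    rw [← sq, div_self (by positivity), Real.sqrt_one]
  rw [c3, mul_one] at c2
  have c4 : (∑ h ∈ range H, ∑ h' ∈ range H, (NC ν C S φ c (p * h) (p * h') -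
      NK ν S φ c (p * h) (p * h'))) / (H : ℝ) ^ 2 =
      (∑ h ∈ range H, ∑ h' ∈ range H, NC ν C S φ c (p * h) (p * h')) / (H : ℝ) ^ 2 -
        (∑ h ∈ range H, ∑ h' ∈ range H, NK ν S φ c (p * h) (p * h')) / (H : ℝ) ^ 2 := by
    simp only [sum_sub_distrib, sub_div]
  rw [c4] at c2
  have c5 := mul_le_mul_of_nonneg_left c2 (sq_nonneg B)
  linarith

theorem aesm_of_ae {Y : Type} [MetricSpace Y] [CompactSpace Y] [MeasurableSpace Y] [BorelSpace Y]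
    {ν : Measure Y} {V : Type} [TopologicalSpace V] [TopologicalSpace.PseudoMetrizableSpace V]
    {F : Y → V} (h : ∀ᵐ x ∂ν, ContinuousAt F x) : AEStronglyMeasurable F ν := by
  let := TopologicalSpace.pseudoMetrizableSpacePseudoMetric V
  obtain ⟨A, hA⟩ : ∃ A : Set Y, A = {x | ContinuousAt F x} := ⟨_, rfl⟩
  have h1 : MeasurableSet A := by
    rw [hA]
    exact (IsGδ.setOfPred_continuousAt F).measurableSet
  have h2 : ContinuousOn F A := by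
    intro x hx
    rw [hA] at hx
    exact ContinuousAt.continuousWithinAt hx
  have h3 := h2.aestronglyMeasurable (μ := ν) h1
  have h4 : ∀ᵐ x ∂ν, x ∈ A := by
    rw [hA]
    exact h
  rwa [Measure.restrict_eq_self_of_ae_mem h4] at h3

/-- MLA -/
theorem st_MLA (hMST : ST_MST) (hMHQ : ST_MHQ) (hMTV : ST_MTV) (hMSK : ST_MSK) (hMNK : ST_MNK)
    (hLMF : ST_LMF) : ST_MLA := by
  intro Y _ _ _ _ ν _ S₀ hS₀ hMdl d φ c hφ hc ε hε
  obtain ⟨S, hSe⟩ : ∃ S : Y → Y, S = S₀ := ⟨_, rfl⟩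
  obtain ⟨S', hSe'⟩ : ∃ S' : Y → Y, S' = S₀.symm := ⟨_, rfl⟩
  have hS : Sys ν S S' := by
    rw [hSe, hSe']
    refine ⟨hS₀, ?_, Eventually.of_forall fun x => S₀.symm_apply_apply x,
      Eventually.of_forall fun x => S₀.apply_symm_apply x⟩
    exact MeasurePreserving.symm S₀.toMeasurableEquiv hS₀
  rw [← hSe] at hMdl ⊢
  have hSt : St ν S S' := hMST Y ν S S' hS hMdl
  have hφm : AEStronglyMeasurable φ ν := aesm_of_ae hφ.1
  have hcm : AEStronglyMeasurable c ν := hc.aestronglyMeasurable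
  obtain ⟨B0, hB0⟩ := isCompact_univ.exists_bound_of_continuousOn hc.continuousOn
  have hB : ∀ x, ‖c x‖ ≤ B0 := fun x => hB0 x (Set.mem_univ x)
  obtain ⟨V, hV⟩ : ∃ V : ℝ, V = B0 ^ 2 := ⟨_, rfl⟩
  have hV0 : 0 ≤ V := by rw [hV]; exact sq_nonneg _
  -- the constants
  obtain ⟨δ, hδ0, hδ⟩ : ∃ δ : ℝ, 0 < δ ∧ V * √δ ≤ ε / 4 := by
    refine ⟨(ε / (4 * (V + 1))) ^ 2, by positivity, ?_⟩
    rw [Real.sqrt_sq (by positivity)]
    rw [mul_div_assoc', div_le_div_iff₀ (by positivity) (by norm_num)]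
    nlinarith
  obtain ⟨ε₁, hε₁, hε₁'⟩ : ∃ ε₁ : ℝ, 0 < ε₁ ∧ ∀ e, 0 ≤ e → e ≤ ε₁ → V * √(e * V ^ 2) ≤ ε / 4 := by
    refine ⟨(ε / (4 * (V ^ 2 + 1))) ^ 2, by positivity, fun e he he' => ?_⟩
    rw [Real.sqrt_mul he, Real.sqrt_sq hV0]
    have h1 : √e ≤ ε / (4 * (V ^ 2 + 1)) := by
      rw [Real.sqrt_le_left (by positivity)]
      exact he'
    have h2 : V * (√e * V) ≤ V * ((ε / (4 * (V ^ 2 + 1))) * V) := by gcongr
    refine h2.trans ?_
    have h3 : V * ((ε / (4 * (V ^ 2 + 1))) * V) = V ^ 2 * ε / (4 * (V ^ 2 + 1)) := by ring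
    rw [h3, div_le_div_iff₀ (by positivity) (by norm_num)]
    nlinarith [sq_nonneg V]
  obtain ⟨p₀, R₀, K, η, hR₀, hη, hmtv⟩ := hMTV Y ν S S' d φ c hSt hφm hφ.2 hcm
    ⟨B0, hB⟩ δ hδ0
  have hε2 : 0 < min η ε₁ := lt_min hη hε₁
  have hE1 : ∀ k k', AEStronglyMeasurable (EE S φ c k k') ν := ae_aesm hS hφm hcm
  have hEb : ∀ k k' x, ‖EE S φ c k k' x‖ ≤ B0 ^ 2 := fun k k' x =>
    Pool.Agent.Helper16.BZ.EE_norm S φ c hφ.2 B0 hB k k' x
  obtain ⟨q₀, hq₀⟩ := hMHQ Y ν S S' hS hMdl R₀ (K * K)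
    (fun i => EE S φ c (finProdFinEquiv.symm i).1 (finProdFinEquiv.symm i).2) (min η ε₁) hε2
    (fun i => MemLp.of_bound (hE1 _ _) (B0 ^ 2) (Eventually.of_forall (hEb _ _)))
  refine ⟨max (max p₀ q₀) (R₀ ^ 2 + 1), fun p hp hpp q hq hqp hpq κ hJ => ?_⟩
  have hp1 : p₀ ≤ p := ((le_max_left _ _).trans (le_max_left _ _)).trans hp
  have hq1 : q₀ ≤ q := ((le_max_right _ _).trans (le_max_left _ _)).trans hq
  have hq2 : R₀ ^ 2 < q := by
    have : R₀ ^ 2 + 1 ≤ q := (le_max_right _ _).trans hq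
    omega
  obtain ⟨C, hHQ, hJJ, hG⟩ := hq₀ q hq1 hqp p hpp hpq κ hJ
  have hnk := hMNK Y ν S S' C d φ c hS hHQ.ia hφm hφ.2 hcm ⟨B0, hB⟩
  have hnc := hMSK Y ν S S' C d φ c hS hHQ.ia hφm hφ.2 hcm ⟨B0, hB⟩
  have hLM : LM (NC ν C S φ c) p ≤ LM (NK ν S φ c) p + δ := by
    refine hmtv C p q hp1 hpp hqp hpq hq2 hHQ fun k hk k' hk' => ?_
    rw [(hnk.2 k k').2.2]
    have := hG (finProdFinEquiv (⟨k, hk⟩, ⟨k', hk'⟩))
    simp only [Equiv.symm_apply_apply] at this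
    exact this.trans (min_le_left _ _)
  -- the limits
  have l1 := (hLMF _ hnk.1).1 p hpp.one_le
  have l2 := (hLMF _ hnk.1).1 q hqp.one_le
  have l3 := (hLMF _ hnc).1 p hpp.one_le
  have l4 := (((l1.sqrt).mul (l2.sqrt)).add (tendsto_const_nhds (x :=
    V * √(min η ε₁ * V ^ 2)))).add ((l3.sub l1).sqrt.const_mul V)
  have b1 := hε₁' (min η ε₁) hε2.le (min_le_right _ _)
  have b2 : V * √(LM (NC ν C S φ c) p - LM (NK ν S φ c) p) ≤ ε / 4 := by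
    refine le_trans (mul_le_mul_of_nonneg_left (Real.sqrt_le_sqrt ?_) hV0) hδ
    linarith
  have l5 := l4.eventually_le_const (u := √(LM (NK ν S φ c) p) *
      √(LM (NK ν S φ c) q) + ε) (by linarith)
  filter_upwards [l5, eventually_ge_atTop 1] with H h5 hH
  refine le_trans ?_ h5
  have := aHY_le hJ hS hHQ.ia.1 hε2.le hJJ hφm hφ.2 hcm hB (fun k k' => ⟨(hnk.2 k k').1,
    (hnk.2 k k').2.2⟩) hH
  rw [← hV] at this
  exact this

end Pool.Agent.Helper41.GY
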